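import Pool.Agent.W757.BL.Defs

/-!
Second derivatives of the length of a chord.
-/

set_option autoImplicit false

namespace Pool.Agent.W335.BL

open Set Filter Topology Pool.Agent.W757.BL

/-- first derivative of the square root of a sum of two squares -/
theorem d1 {X Y : ℝ → ℝ} {X1 Y1 τ : ℝ} (hX : HasDerivAt X X1 τ) (hY : HasDerivAt Y Y1 τ)
    (hp : 0 < X τ ^ 2 + Y τ ^ 2) :
    HasDerivAt (fun s => √(X s ^ 2 + Y s ^ 2)) ((X τ * X1 + Y τ * Y1) / √(X τ ^ 2 + Y τ ^ 2)) τ := by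
  have h := ((hX.pow 2).add (hY.pow 2)).sqrt (by simpa using hp.ne')
  have hr : √(X τ ^ 2 + Y τ ^ 2) ≠ 0 := (Real.sqrt_pos.mpr hp).ne'
  have e : (X ^ 2 + Y ^ 2) τ = X τ ^ 2 + Y τ ^ 2 := rfl
  rw [e] at h
  have e2 : ((2 : ℕ) * X τ ^ (2 - 1) * X1 + (2 : ℕ) * Y τ ^ (2 - 1) * Y1) /
      (2 * √(X τ ^ 2 + Y τ ^ 2)) = (X τ * X1 + Y τ * Y1) / √(X τ ^ 2 + Y τ ^ 2) := by
    push_cast
    field_simp
  rw [e2] at h
  exact h

/-- second derivative -/
theorem d2 {X Y X1 Y1 : ℝ → ℝ} {X2 Y2 : ℝ} (hX : ∀ τ, HasDerivAt X (X1 τ) τ)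
    (hY : ∀ τ, HasDerivAt Y (Y1 τ) τ) (hX1 : HasDerivAt X1 X2 0) (hY1 : HasDerivAt Y1 Y2 0)
    (hp : 0 < X 0 ^ 2 + Y 0 ^ 2) :
    deriv (deriv (fun s => √(X s ^ 2 + Y s ^ 2))) 0 =
      (X1 0 ^ 2 + Y1 0 ^ 2 + X 0 * X2 + Y 0 * Y2) / √(X 0 ^ 2 + Y 0 ^ 2) -
        (X 0 * X1 0 + Y 0 * Y1 0) ^ 2 / √(X 0 ^ 2 + Y 0 ^ 2) ^ 3 := by
  have hc : Continuous fun s => X s ^ 2 + Y s ^ 2 := by
    have h1 : Continuous X := continuous_iff_continuousAt.mpr fun τ => (hX τ).continuousAt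
    have h2 : Continuous Y := continuous_iff_continuousAt.mpr fun τ => (hY τ).continuousAt
    exact (h1.pow 2).add (h2.pow 2)
  have hev : ∀ᶠ τ in 𝓝 (0 : ℝ), 0 < X τ ^ 2 + Y τ ^ 2 :=
    hc.continuousAt.eventually (lt_mem_nhds hp)
  have heq : deriv (fun s => √(X s ^ 2 + Y s ^ 2)) =ᶠ[𝓝 0]
      fun τ => (X τ * X1 τ + Y τ * Y1 τ) / √(X τ ^ 2 + Y τ ^ 2) := by
    filter_upwards [hev] with τ hτ
    exact (d1 (hX τ) (hY τ) hτ).deriv
  rw [heq.deriv_eq]
  have hr : √(X 0 ^ 2 + Y 0 ^ 2) ≠ 0 := (Real.sqrt_pos.mpr hp).ne'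
  have h := (((hX 0).mul hX1).add ((hY 0).mul hY1)).div (d1 (hX 0) (hY 0) hp) hr
  have h2 := h.deriv
  have e : (fun τ => (X τ * X1 τ + Y τ * Y1 τ) / √(X τ ^ 2 + Y τ ^ 2)) =
      ((X * X1 + Y * Y1) / fun s => √(X s ^ 2 + Y s ^ 2)) := by
    funext τ
    simp
  rw [e, h2]
  simp only [Pi.add_apply, Pi.mul_apply]
  field_simp
  ring

theorem t_ED : S_ED := by
  intro x y x' y' L hcv hcf hax hay a b hab hbL
  have hx' : x' = deriv x := funext fun s => ((hcv.dx s).deriv).symm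
  have hy' : y' = deriv y := funext fun s => ((hcv.dy s).deriv).symm
  have hdx : ∀ s, HasDerivAt x' (deriv x' s) s := fun s => by
    rw [hx']
    exact ((hax.deriv s (mem_univ s)).differentiableAt).hasDerivAt
  have hdy : ∀ s, HasDerivAt y' (deriv y' s) s := fun s => by
    rw [hy']
    exact ((hay.deriv s (mem_univ s)).differentiableAt).hasDerivAt
  set dx := x b - x a with hdx0
  set dy := y b - y a with hdy0
  have hr : 0 < hh x y a b := hcf.pos a b hab hbL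
  have hrdef : hh x y a b = √(dx ^ 2 + dy ^ 2) := rfl
  set r := √(dx ^ 2 + dy ^ 2) with hrr
  rw [hrdef] at hr
  have hp : 0 < dx ^ 2 + dy ^ 2 := Real.sqrt_pos.mp hr
  have hr2 : r ^ 2 = dx ^ 2 + dy ^ 2 := Real.sq_sqrt hp.le
  have hP : 0 < x' a * dy - y' a * dx := hcv.conv a b hab hbL
  have hQ : 0 < dx * y' b - dy * x' b := by
    have := hcf.conv' a b hab hbL
    have e : dx * y' b - dy * x' b = x' b * (y a - y b) - y' b * (x a - x b) := by
      rw [hdx0, hdy0]; ring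
    rw [e]; exact this
  refine ⟨(x' a ^ 2 + y' a ^ 2 - dx * deriv x' a - dy * deriv y' a) / r -
      (dx * x' a + dy * y' a) ^ 2 / r ^ 3,
    (x' a * dy - y' a * dx) * (dx * y' b - dy * x' b) / r ^ 3,
    (x' b ^ 2 + y' b ^ 2 + dx * deriv x' b + dy * deriv y' b) / r -
      (dx * x' b + dy * y' b) ^ 2 / r ^ 3, by positivity, fun α β => ?_⟩
  have haff : ∀ (c γ τ : ℝ), HasDerivAt (fun τ : ℝ => c + τ * γ) γ τ := by
    intro c γ τ
    simpa using ((hasDerivAt_id τ).mul_const γ).const_add c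
  have hcomp : ∀ (f f' : ℝ → ℝ), (∀ s, HasDerivAt f (f' s) s) → ∀ (c γ τ : ℝ),
      HasDerivAt (fun τ : ℝ => f (c + τ * γ)) (f' (c + τ * γ) * γ) τ := by
    intro f f' hf c γ τ
    exact (hf (c + τ * γ)).comp τ (haff c γ τ)
  have h := d2 (X := fun τ => x (b + τ * β) - x (a + τ * α))
    (Y := fun τ => y (b + τ * β) - y (a + τ * α))
    (X1 := fun τ => x' (b + τ * β) * β - x' (a + τ * α) * α)
    (Y1 := fun τ => y' (b + τ * β) * β - y' (a + τ * α) * α)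
    (X2 := deriv x' b * β * β - deriv x' a * α * α)
    (Y2 := deriv y' b * β * β - deriv y' a * α * α)
    (fun τ => (hcomp x x' hcv.dx b β τ).sub (hcomp x x' hcv.dx a α τ))
    (fun τ => (hcomp y y' hcv.dy b β τ).sub (hcomp y y' hcv.dy a α τ))
    (by
      have e1 := (hcomp x' (deriv x') hdx b β 0).mul_const β
      have e2 := (hcomp x' (deriv x') hdx a α 0).mul_const α
      simp only [zero_mul, add_zero] at e1 e2
      exact e1.sub e2)
    (by
      have e1 := (hcomp y' (deriv y') hdy b β 0).mul_const β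
      have e2 := (hcomp y' (deriv y') hdy a α 0).mul_const α
      simp only [zero_mul, add_zero] at e1 e2
      exact e1.sub e2)
    (by simpa using hp)
  have e0 : (fun τ : ℝ => hh x y (a + τ * α) (b + τ * β)) =
      fun s => √((x (b + s * β) - x (a + s * α)) ^ 2 + (y (b + s * β) - y (a + s * α)) ^ 2) := rfl
  rw [e0, h]
  simp only [zero_mul, add_zero]
  rw [← hdx0, ← hdy0, ← hrr]
  have hr0 : r ≠ 0 := hr.ne'
  have e3 : ∀ u v : ℝ, u / r = u * r ^ 2 / r ^ 3 := fun u v => by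
    field_simp
  rw [e3 (x' a ^ 2 + y' a ^ 2 - dx * deriv x' a - dy * deriv y' a) 0,
    e3 (x' b ^ 2 + y' b ^ 2 + dx * deriv x' b + dy * deriv y' b) 0,
    e3 ((x' b * β - x' a * α) ^ 2 + (y' b * β - y' a * α) ^ 2 +
      dx * (deriv x' b * β * β - deriv x' a * α * α) +
        dy * (deriv y' b * β * β - deriv y' a * α * α)) 0, hr2]
  field_simp
  ring

end Pool.Agent.W335.BL
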